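import Pool.Agent.helper64.D2.SpecS

set_option autoImplicit false

open Filter Topology

open scoped commutatorElement

namespace Pool.Agent.helper64.D2

theorem ADM_nonneg (g : DD) (a : ℝ) (h : Sz g a) : 0 ≤ a := le_trans (abs_nonneg _) (h 0)

theorem ADM_mono (g : DD) (a b : ℝ) (h : Sz g a) (hab : a ≤ b) : Sz g b := fun x => (h x).trans hab

theorem ADM_mk (hSZC : SZC_stmt) (c : ℕ → DD) (γ : ℕ → ℝ) (hc : ∀ k < 2, c k = 1)
    (hγ : Tendsto (fun k : ℕ => (k : ℝ) ^ 3 * γ k ^ 2) atTop (𝓝 0)) (hs : ∀ᶠ k in atTop, Sz (c k) (γ k)) : Adm c := by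
  classical
  obtain ⟨_, _, _, _, hb⟩ := hSZC
  choose B hB using hb
  refine ⟨hc, fun k => if Sz (c k) (γ k) then γ k else B (c k), ?_, ?_⟩
  · refine hγ.congr' ?_
    filter_upwards [hs] with k hk
    simp only [hk, if_true]
  · intro k
    by_cases h : Sz (c k) (γ k)
    · simp only [h, if_true]
    · simp only [h, if_false]; exact hB _

theorem ADM_small (c : ℕ → DD) (α : ℕ → ℝ)
    (hα : Tendsto (fun k : ℕ => (k : ℝ) ^ 3 * α k ^ 2) atTop (𝓝 0)) (hs : ∀ k, Sz (c k) (α k)) : ∀ᶠ k in atTop, α k ≤ 1 / 8 := by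
  have h1 : ∀ᶠ k : ℕ in atTop, (k : ℝ) ^ 3 * α k ^ 2 < 1 / 64 := hα.eventually (gt_mem_nhds (by norm_num))
  filter_upwards [h1, eventually_ge_atTop 1] with k hk hk1
  have h2 : (1 : ℝ) ≤ k := by exact_mod_cast hk1
  have h3 : (1 : ℝ) ≤ (k : ℝ) ^ 3 := one_le_pow₀ h2
  have h4 : α k ^ 2 ≤ (k : ℝ) ^ 3 * α k ^ 2 := by nlinarith [sq_nonneg (α k)]
  have h5 := ADM_nonneg _ _ (hs k)
  by_contra hcon
  push Not at hcon
  nlinarith

theorem ADM_one : Sz 1 0 := by
  intro x
  have h : ev 1 = fun x : ℝ => x := by funext x; exact ev_one x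
  have h2 : deriv (ev 1) = fun _ : ℝ => (1 : ℝ) := by rw [h]; funext y; exact deriv_id y
  unfold d2
  rw [h2, deriv_const]
  simp

theorem ADM (hSZC : SZC_stmt) : ADM_stmt := by
  have hSZC' := hSZC
  obtain ⟨_, _, hmul, hinv, _⟩ := hSZC'
  refine ⟨?_, ?_, ?_, ?_, ?_⟩
  · rintro a b ⟨ha, α, hα, hαs⟩ ⟨hb, β, hβ, hβs⟩
    refine ADM_mk hSZC _ (fun k => 2 * (α k + β k)) ?_ ?_ ?_
    · intro k hk
      rw [Pi.mul_apply, ha k hk, hb k hk, one_mul]
    · have hsum : Tendsto (fun k : ℕ => 8 * ((k : ℝ) ^ 3 * α k ^ 2) + 8 * ((k : ℝ) ^ 3 * β k ^ 2)) atTop (𝓝 0) := by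
        have := (hα.const_mul 8).add (hβ.const_mul 8)
        simpa using this
      refine squeeze_zero (fun k => by positivity) (fun k => ?_) hsum
      have hk : (0 : ℝ) ≤ (k : ℝ) ^ 3 := by positivity
      nlinarith [mul_nonneg hk (sq_nonneg (α k - β k))]
    · filter_upwards [ADM_small a α hα hαs, ADM_small b β hβ hβs] with k h1 h2
      refine ADM_mono _ _ _ (hmul (a k) (b k) (α k) (β k) (hαs k) (hβs k) h1 h2) ?_
      have h3 := ADM_nonneg _ _ (hαs k)
      have h4 := ADM_nonneg _ _ (hβs k)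
      nlinarith
  · rintro a ⟨ha, α, hα, hαs⟩
    refine ADM_mk hSZC _ (fun k => 2 * α k) ?_ ?_ ?_
    · intro k hk
      rw [Pi.inv_apply, ha k hk, inv_one]
    · have := hα.const_mul 4
      rw [mul_zero] at this
      refine this.congr (fun k => by ring)
    · filter_upwards [ADM_small a α hα hαs] with k h1
      exact hinv (a k) (α k) (hαs k) h1
  · rintro a ⟨ha, α, hα, hαs⟩
    refine ADM_mk hSZC _ (fun k => α (k - 1)) ?_ ?_ ?_
    · intro k hk
      show a (k - 1) = 1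
      exact ha (k - 1) (by omega)
    · have h8 : Tendsto (fun k : ℕ => 8 * (((k - 1 : ℕ) : ℝ) ^ 3 * α (k - 1) ^ 2)) atTop (𝓝 0) := by
        have := (hα.comp (tendsto_sub_atTop_nat 1)).const_mul 8
        rw [mul_zero] at this
        exact this
      refine squeeze_zero' (Eventually.of_forall fun k => by positivity) ?_ h8
      filter_upwards [eventually_ge_atTop 2] with k hk
      have h1 : (k : ℝ) ≤ 2 * ((k - 1 : ℕ) : ℝ) := by
        rw [Nat.cast_sub (by omega)]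
        have : (2 : ℝ) ≤ k := by exact_mod_cast hk
        push_cast
        linarith
      have h2 : (k : ℝ) ^ 3 ≤ (2 * ((k - 1 : ℕ) : ℝ)) ^ 3 := pow_le_pow_left₀ (by positivity) h1 3
      have h3 : (2 * ((k - 1 : ℕ) : ℝ)) ^ 3 = 8 * ((k - 1 : ℕ) : ℝ) ^ 3 := by ring
      rw [h3] at h2
      have h4 := mul_le_mul_of_nonneg_right h2 (sq_nonneg (α (k - 1)))
      linarith
    · exact Eventually.of_forall fun k => hαs (k - 1)
  · refine ADM_mk hSZC _ (fun _ => 0) (fun k _ => rfl) ?_ ?_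
    · simp
    · exact Eventually.of_forall fun k => ADM_one
  · intro k g hk
    refine ADM_mk hSZC _ (fun _ => 0) ?_ ?_ ?_
    · intro j hj
      have hjk : j ≠ k := by omega
      exact Pi.mulSingle_eq_of_ne (M := fun _ : ℕ => DD) hjk g
    · simp
    · filter_upwards [eventually_gt_atTop k] with j hj
      have hjk : j ≠ k := by omega
      rw [Pi.mulSingle_eq_of_ne (M := fun _ : ℕ => DD) hjk g]
      exact ADM_one

end Pool.Agent.helper64.D2
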